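import Mathlib.Topology.Sheaves.Presheaf
import Mathlib.MeasureTheory.Measure.Lebesgue.EqHaar
import Mathlib.Combinatorics.SimpleGraph.Basic

set_option autoImplicit false

namespace Pool.Agent.MP_ddaf7c_pr

open MeasureTheory Finset

/-- independent uniform weights -/
noncomputable abbrev cube (ι : Type) [Fintype ι] : Measure (ι → ℝ) :=
  Measure.pi (fun _ : ι => volume.restrict (Set.Icc (0 : ℝ) 1))

instance : IsProbabilityMeasure (volume.restrict (Set.Icc (0 : ℝ) 1)) := ⟨by simp⟩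

lemma mp_comp {ι κ : Type} [Fintype ι] [Fintype κ] (e : ι ≃ κ) :
    MeasurePreserving (fun (w : κ → ℝ) (i : ι) => w (e i)) (cube κ) (cube ι) :=
  (measurePreserving_piCongrLeft (α := fun _ : κ => ℝ)
    (fun _ : κ => volume.restrict (Set.Icc (0 : ℝ) 1)) e).symm

variable {ι : Type} [Fintype ι] [DecidableEq ι]

lemma tie_null {a b : ι} (hab : a ≠ b) : cube ι {w | w a = w b} = 0 := by
  have h1 : cube ι = (volume : Measure (ι → ℝ)).restrict (Set.univ.pi fun _ => Set.Icc 0 1) :=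
    (Measure.restrict_pi_pi (fun _ : ι => (volume : Measure ℝ)) _).symm
  rw [h1]
  refine le_antisymm ((Measure.restrict_le_self _).trans (le_of_eq ?_)) bot_le
  have h2 := Measure.addHaar_submodule (volume : Measure (ι → ℝ))
    (LinearMap.ker ((LinearMap.proj a : (ι → ℝ) →ₗ[ℝ] ℝ) - LinearMap.proj b)) (by
      intro h
      have h3 : (Pi.single a 1 : ι → ℝ) ∈
          LinearMap.ker ((LinearMap.proj a : (ι → ℝ) →ₗ[ℝ] ℝ) - LinearMap.proj b) := by
        rw [h]; trivial
      simp [hab.symm] at h3)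
  convert h2 using 2
  ext w
  simp [sub_eq_zero]

/-- `e` is the strict maximiser of `w` on `S` -/
def Top (S : Finset ι) (e : ι) : Set (ι → ℝ) := {w | ∀ f ∈ S, f ≠ e → w f < w e}

omit [DecidableEq ι] in
lemma measurableSet_Top (S : Finset ι) (e : ι) : MeasurableSet (Top S e) := by
  unfold Top
  measurability

omit [Fintype ι] [DecidableEq ι] in
lemma Top_unique {S : Finset ι} {e e' : ι} (he : e ∈ S) (he' : e' ∈ S) {w : ι → ℝ}
    (h : w ∈ Top S e) (h' : w ∈ Top S e') : e = e' := by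
  by_contra hne
  exact lt_asymm (h e' he' (Ne.symm hne)) (h' e he hne)

omit [Fintype ι] in
lemma Top_swap {S : Finset ι} {e x y : ι} (hx : x ∈ S) (hy : y ∈ S) (hxe : x ≠ e) (hye : y ≠ e)
    {w : ι → ℝ} (h : w ∈ Top S e) : (fun i => w (Equiv.swap x y i)) ∈ Top S e := by
  intro f hf hfe
  simp only [Equiv.swap_apply_of_ne_of_ne hxe.symm hye.symm]
  by_cases h1 : f = x
  · rw [h1, Equiv.swap_apply_left]; exact h y hy hye
  · by_cases h2 : f = y
    · rw [h2, Equiv.swap_apply_right]; exact h x hx hxe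
    · rw [Equiv.swap_apply_of_ne_of_ne h1 h2]; exact h f hf hfe

omit [Fintype ι] in
lemma Top_swap' {S : Finset ι} {x y : ι} (hy : y ∈ S)
    {w : ι → ℝ} (h : w ∈ Top S x) : (fun i => w (Equiv.swap x y i)) ∈ Top S y := by
  intro f hf hfy
  simp only [Equiv.swap_apply_right]
  by_cases h1 : f = x
  · rw [h1, Equiv.swap_apply_left]
    exact h y hy (fun e => hfy (h1.trans e.symm))
  · rw [Equiv.swap_apply_of_ne_of_ne h1 hfy]; exact h f hf h1

lemma measure_le_card_mul {S : Finset ι} {e : ι} (he : e ∈ S) {A : Set (ι → ℝ)}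
    (hA : MeasurableSet A)
    (hinv : ∀ x ∈ S, ∀ y ∈ S, ∀ w ∈ A, (fun i => w (Equiv.swap x y i)) ∈ A) :
    cube ι A ≤ S.card * cube ι (A ∩ Top S e) := by
  have hsub : A ⊆ (⋃ p ∈ (univ : Finset ι).offDiag, {w : ι → ℝ | w p.1 = w p.2}) ∪
      ⋃ x ∈ S, A ∩ Top S x := by
    intro w hw
    obtain ⟨x, hx, hmax⟩ := exists_max_image S w ⟨e, he⟩
    by_cases ht : ∃ a b : ι, a ≠ b ∧ w a = w b
    · obtain ⟨a, b, hab, h⟩ := ht
      left
      simp only [Set.mem_iUnion]
      exact ⟨(a, b), by simp [hab], h⟩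
    · right
      push Not at ht
      simp only [Set.mem_iUnion]
      exact ⟨x, hx, hw, fun f hf hfx => lt_of_le_of_ne (hmax f hf) (ht f x hfx)⟩
  have h0 : cube ι (⋃ p ∈ (univ : Finset ι).offDiag, {w : ι → ℝ | w p.1 = w p.2}) = 0 := by
    refine le_antisymm ((measure_biUnion_finset_le _ _).trans (le_of_eq ?_)) bot_le
    exact sum_eq_zero (fun p hp => tie_null (mem_offDiag.1 hp).2.2)
  have h1 : ∀ x ∈ S, cube ι (A ∩ Top S x) ≤ cube ι (A ∩ Top S e) := by
    intro x hx
    rw [← (mp_comp (Equiv.swap x e)).measure_preimage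
      (hA.inter (measurableSet_Top S e)).nullMeasurableSet]
    exact measure_mono (fun w hw => ⟨hinv x hx e he w hw.1, Top_swap' he hw.2⟩)
  calc cube ι A ≤ _ := measure_mono hsub
    _ ≤ _ := measure_union_le _ _
    _ ≤ 0 + ∑ x ∈ S, cube ι (A ∩ Top S x) := by
      rw [h0]
      gcongr
      exact measure_biUnion_finset_le _ _
    _ ≤ S.card * cube ι (A ∩ Top S e) := by
      rw [zero_add, ← nsmul_eq_mul]
      exact sum_le_card_nsmul _ _ _ h1

lemma real_le_card_mul {S : Finset ι} {e : ι} (he : e ∈ S) {A : Set (ι → ℝ)}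
    (hA : MeasurableSet A)
    (hinv : ∀ x ∈ S, ∀ y ∈ S, ∀ w ∈ A, (fun i => w (Equiv.swap x y i)) ∈ A) :
    (cube ι).real A / S.card ≤ (cube ι).real (A ∩ Top S e) := by
  have hpos : (0 : ℝ) < S.card := by exact_mod_cast card_pos.2 ⟨e, he⟩
  rw [div_le_iff₀ hpos, mul_comm]
  have h := ENNReal.toReal_mono (ENNReal.mul_ne_top (ENNReal.natCast_ne_top _)
    (measure_ne_top _ _)) (measure_le_card_mul he hA hinv)
  simpa [Measure.real, ENNReal.toReal_mul] using h

/-- three nested maxima -/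
lemma nested {S₂ S₃ : Finset ι} {a b c : ι} (hb : b ∈ S₂) (hc : c ∈ S₃) (ha : a ∉ S₂)
    (hb' : b ∉ S₃) (hsub : S₃ ⊆ S₂) :
    1 / (Fintype.card ι : ℝ) / S₂.card / S₃.card ≤
      (cube ι).real (Top univ a ∩ Top S₂ b ∩ Top S₃ c) := by
  have h1 := real_le_card_mul (mem_univ a) (A := Set.univ) MeasurableSet.univ
    (fun _ _ _ _ _ _ => trivial)
  rw [Set.univ_inter, probReal_univ, card_univ] at h1
  have h2 := real_le_card_mul hb (measurableSet_Top univ a)
    (fun x hx y hy w hw => Top_swap (mem_univ x) (mem_univ y) (ne_of_mem_of_not_mem hx ha)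
      (ne_of_mem_of_not_mem hy ha) hw)
  have h3 := real_le_card_mul hc ((measurableSet_Top univ a).inter (measurableSet_Top S₂ b))
    (fun x hx y hy w hw => ⟨Top_swap (mem_univ x) (mem_univ y) (ne_of_mem_of_not_mem (hsub hx) ha)
      (ne_of_mem_of_not_mem (hsub hy) ha) hw.1,
      Top_swap (hsub hx) (hsub hy) (ne_of_mem_of_not_mem hx hb')
        (ne_of_mem_of_not_mem hy hb') hw.2⟩)
  refine le_trans ?_ h3
  gcongr
  refine le_trans ?_ h2
  gcongr

end Pool.Agent.MP_ddaf7c_pr
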