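import Mathlib.MeasureTheory.Constructions.Pi
import Mathlib.MeasureTheory.Measure.Haar.OfBasis
import Mathlib.Combinatorics.SimpleGraph.Acyclic

set_option autoImplicit false

namespace Pool.Agent.MP_ddaf7c_pr

open MeasureTheory
open scoped Classical

variable {V : Type} [Fintype V]

/-- `T` is a spanning tree of `G`: a subgraph on the same vertex set that is a tree. -/
def IsSpanningTree (G T : SimpleGraph V) : Prop := T ≤ G ∧ T.IsTree

/-- Some edge `e` of `T` has every component of `T - e` on exactly half of the vertices. -/
def Splittable (T : SimpleGraph V) : Prop :=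
  ∃ e ∈ T.edgeSet, ∀ C : (T.deleteEdges {e}).ConnectedComponent,
    2 * C.supp.ncard = Fintype.card V

/-- The proportion of the spanning trees of `G` that are splittable. -/
noncomputable def pUST (G : SimpleGraph V) : ℝ :=
  ({T | IsSpanningTree G T ∧ Splittable T}.ncard : ℝ) / ({T | IsSpanningTree G T}.ncard : ℝ)

/-- The total weight of the edges of `T`. -/
noncomputable def weight (G : SimpleGraph V) (w : G.edgeSet → ℝ) (T : SimpleGraph V) : ℝ :=
  ∑ e : G.edgeSet, if (e : Sym2 V) ∈ T.edgeSet then w e else 0

/-- The probability, for independent uniform `[0,1]` edge weights, that `G` has a unique spanning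
tree of least total weight and that this tree is splittable. -/
noncomputable def pMST (G : SimpleGraph V) : ℝ :=
  (Measure.pi (fun _ : G.edgeSet => volume.restrict (Set.Icc (0 : ℝ) 1))).real
    {w | ∃ T, IsSpanningTree G T ∧ Splittable T ∧
      ∀ T', IsSpanningTree G T' → T' ≠ T → weight G w T < weight G w T'}

end Pool.Agent.MP_ddaf7c_pr
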