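import Mathlib.CategoryTheory.Monoidal.PushoutProduct
import Mathlib.Combinatorics.Colex
import Pool.Agent.MP_ddaf7c_pr.Defs

set_option autoImplicit false

namespace Pool.Agent.MP_ddaf7c_pr

open Finset SimpleGraph

/-- vertices of the two by four grid -/
abbrev Vx : Type := Fin 2 × Fin 4

/-- the two by four grid -/
abbrev grid : SimpleGraph Vx := pathGraph 2 □ pathGraph 4

/-- first endpoints -/
def ea : Fin 10 → Vx :=
  ![(0, 0), (0, 1), (0, 2), (1, 0), (1, 1), (1, 2), (0, 0), (0, 1), (0, 2), (0, 3)]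

/-- second endpoints -/
def eb : Fin 10 → Vx :=
  ![(0, 1), (0, 2), (0, 3), (1, 1), (1, 2), (1, 3), (1, 0), (1, 1), (1, 2), (1, 3)]

/-- the edges -/
def ed (i : Fin 10) : Sym2 Vx := s(ea i, eb i)

lemma ed_inj : Function.Injective ed := by
  unfold ed
  decide +kernel

lemma grid_adj (u v : Vx) : grid.Adj u v ↔ ∃ i, ed i = s(u, v) := by
  simp only [boxProd_adj, pathGraph_adj, ed]
  revert u v
  decide +kernel

lemma mem_grid (e : Sym2 Vx) : e ∈ grid.edgeSet ↔ ∃ i, ed i = e := by
  induction e using Sym2.ind with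
  | h u v => exact grid_adj u v

/-- the grid with the edges indexed by `S` removed -/
def gam (S : Finset (Fin 10)) : SimpleGraph Vx := grid.deleteEdges (ed '' (S : Set (Fin 10)))

lemma mem_gam (S : Finset (Fin 10)) (e : Sym2 Vx) :
    e ∈ (gam S).edgeSet ↔ ∃ i, i ∉ S ∧ ed i = e := by
  rw [gam, edgeSet_deleteEdges, Set.mem_sdiff, mem_grid]
  constructor
  · rintro ⟨⟨i, rfl⟩, h⟩
    exact ⟨i, fun hi => h ⟨i, hi, rfl⟩, rfl⟩
  · rintro ⟨i, hi, rfl⟩
    refine ⟨⟨i, rfl⟩, ?_⟩
    rintro ⟨j, hj, h⟩
    exact hi (ed_inj h ▸ hj)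

lemma ed_mem_gam (S : Finset (Fin 10)) (i : Fin 10) : ed i ∈ (gam S).edgeSet ↔ i ∉ S := by
  rw [mem_gam]
  constructor
  · rintro ⟨j, hj, h⟩
    exact ed_inj h ▸ hj
  · exact fun h => ⟨i, h, rfl⟩

lemma gam_inj : Function.Injective gam := by
  intro S S' h
  ext i
  rw [← not_iff_not, ← ed_mem_gam, ← ed_mem_gam, h]

lemma gam_le (S : Finset (Fin 10)) : gam S ≤ grid := deleteEdges_le _

lemma exists_gam {T : SimpleGraph Vx} (h : T ≤ grid) : ∃ S, gam S = T := by
  classical
  refine ⟨univ.filter (fun i => ed i ∉ T.edgeSet), edgeSet_injective ?_⟩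
  ext e
  rw [mem_gam]
  constructor
  · rintro ⟨i, hi, rfl⟩
    simpa using hi
  · intro he
    obtain ⟨i, rfl⟩ := (mem_grid e).1 (edgeSet_mono h he)
    exact ⟨i, by simpa using he, rfl⟩

lemma gam_delete (S : Finset (Fin 10)) (i : Fin 10) :
    (gam S).deleteEdges {ed i} = gam (insert i S) := by
  simp only [gam, deleteEdges_deleteEdges, coe_insert, Set.image_insert_eq]
  rw [Set.union_singleton]

lemma card_gam (S : Finset (Fin 10)) : Nat.card (gam S).edgeSet + S.card = 10 := by
  have h : (gam S).edgeSet = ed '' ((Sᶜ : Finset (Fin 10)) : Set (Fin 10)) := by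
    ext e
    rw [mem_gam]
    simp
  rw [h, Nat.card_coe_set_eq, Set.ncard_image_of_injective _ ed_inj, Set.ncard_coe_finset,
    add_comm, card_add_card_compl]
  simp

/-- position of a vertex -/
def idx (v : Vx) : ℕ := 4 * v.1.val + v.2.val

lemma idx_inj : Function.Injective idx := by
  unfold idx
  decide +kernel

/-- one edge of the search -/
def stepE (S : Finset (Fin 10)) (C : ℕ) (i : Fin 10) : ℕ :=
  if i ∉ S ∧ (C.testBit (idx (ea i)) = true ∨ C.testBit (idx (eb i)) = true) then
    C ||| (2 ^ idx (ea i) ||| 2 ^ idx (eb i)) else C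

/-- one sweep of the search -/
def grow (S : Finset (Fin 10)) (C : ℕ) : ℕ := (List.finRange 10).foldl (stepE S) C

/-- the component of `v`, as a bit mask -/
def comp (S : Finset (Fin 10)) (v : Vx) : ℕ := (grow S)^[7] (2 ^ idx v)

lemma bit_pow (u v : Vx) : (2 ^ idx v).testBit (idx u) = true ↔ u = v := by
  rw [Nat.testBit_two_pow, decide_eq_true_iff, idx_inj.eq_iff, eq_comm]

lemma bit_stepE (S : Finset (Fin 10)) (C : ℕ) (i : Fin 10) (u : Vx) :
    (stepE S C i).testBit (idx u) = true ↔ C.testBit (idx u) = true ∨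
      ((i ∉ S ∧ (C.testBit (idx (ea i)) = true ∨ C.testBit (idx (eb i)) = true)) ∧
        (u = ea i ∨ u = eb i)) := by
  unfold stepE
  split_ifs with h
  · rw [Nat.testBit_or, Nat.testBit_or, Bool.or_eq_true, Bool.or_eq_true, bit_pow, bit_pow]
    tauto
  · tauto

lemma adj_ed {S : Finset (Fin 10)} {i : Fin 10} (hi : i ∉ S) : (gam S).Adj (ea i) (eb i) :=
  (ed_mem_gam S i).2 hi

lemma sound_fold (S : Finset (Fin 10)) (v : Vx) (l : List (Fin 10)) (C : ℕ)
    (h : ∀ u, C.testBit (idx u) = true → (gam S).Reachable v u) :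
    ∀ u, (l.foldl (stepE S) C).testBit (idx u) = true → (gam S).Reachable v u := by
  induction l generalizing C with
  | nil => exact h
  | cons i l ih =>
    refine ih _ (fun u hu => ?_)
    rcases (bit_stepE S C i u).1 hu with h1 | ⟨⟨hi, h1 | h1⟩, rfl | rfl⟩
    · exact h u h1
    · exact h _ h1
    · exact (h _ h1).trans (adj_ed hi).reachable
    · exact (h _ h1).trans (adj_ed hi).symm.reachable
    · exact h _ h1

lemma mono_fold (S : Finset (Fin 10)) (l : List (Fin 10)) (C : ℕ) (u : Vx)
    (h : C.testBit (idx u) = true) : (l.foldl (stepE S) C).testBit (idx u) = true := by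
  induction l generalizing C with
  | nil => exact h
  | cons i l ih => exact ih _ ((bit_stepE S C i u).2 (Or.inl h))

lemma adj_fold (S : Finset (Fin 10)) (l : List (Fin 10)) (C : ℕ) (i : Fin 10) (hl : i ∈ l)
    (hi : i ∉ S) (h : C.testBit (idx (ea i)) = true ∨ C.testBit (idx (eb i)) = true) (u : Vx)
    (hu : u = ea i ∨ u = eb i) : (l.foldl (stepE S) C).testBit (idx u) = true := by
  induction l generalizing C with
  | nil => simp at hl
  | cons j l ih =>
    rcases List.mem_cons.1 hl with rfl | hl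
    · exact mono_fold S l _ u ((bit_stepE S C i u).2 (Or.inr ⟨⟨hi, h⟩, hu⟩))
    · refine ih _ hl ?_
      rcases h with h | h
      · exact Or.inl ((bit_stepE S C j _).2 (Or.inl h))
      · exact Or.inr ((bit_stepE S C j _).2 (Or.inl h))

lemma complete_iter (S : Finset (Fin 10)) {u w : Vx} (p : (gam S).Walk u w) (n C : ℕ)
    (h : C.testBit (idx u) = true) (hn : p.length ≤ n) :
    ((grow S)^[n] C).testBit (idx w) = true := by
  induction p generalizing n C with
  | nil =>
    clear hn
    induction n generalizing C with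
    | zero => exact h
    | succ n ih => exact ih _ (mono_fold S _ C _ h)
  | cons hadj p ih =>
    obtain ⟨n, rfl⟩ : ∃ m, n = m + 1 := ⟨n - 1, by simp at hn; omega⟩
    refine ih n (grow S C) ?_ (by simpa using hn)
    obtain ⟨i, hi, he⟩ := (mem_gam S _).1 ((mem_edgeSet _).2 hadj)
    rcases Sym2.eq_iff.1 he with ⟨h1, h2⟩ | ⟨h1, h2⟩
    · exact adj_fold S _ C i (List.mem_finRange i) hi (Or.inl (h1 ▸ h)) _ (Or.inr h2.symm)
    · exact adj_fold S _ C i (List.mem_finRange i) hi (Or.inr (h2 ▸ h)) _ (Or.inl h1.symm)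

lemma reach_iff (S : Finset (Fin 10)) (v u : Vx) :
    (gam S).Reachable v u ↔ (comp S v).testBit (idx u) = true := by
  constructor
  · intro h
    obtain ⟨p, hp⟩ := h.exists_isPath
    refine complete_iter S p 7 _ ((bit_pow v v).2 rfl) ?_
    have := hp.length_lt
    simp at this
    omega
  · have : ∀ n C, (∀ u, C.testBit (idx u) = true → (gam S).Reachable v u) →
        ∀ u, ((grow S)^[n] C).testBit (idx u) = true → (gam S).Reachable v u := by
      intro n
      induction n with
      | zero => exact fun C h => h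
      | succ n ih => exact fun C h => ih _ (sound_fold S v _ C h)
    exact this 7 _ (fun u hu => (bit_pow u v).1 hu ▸ Reachable.refl _) u

/-- fast version of `stepE` -/
def stepF (m C i : ℕ) : ℕ :=
  bif !m.testBit i && (C.testBit (438524040 / 8 ^ i % 8) || C.testBit (1051978449 / 8 ^ i % 8)) then
    C ||| (2 ^ (438524040 / 8 ^ i % 8) ||| 2 ^ (1051978449 / 8 ^ i % 8)) else C

/-- fast version of `grow` -/
def growF (m C : ℕ) : ℕ := [0, 1, 2, 3, 4, 5, 6, 7, 8, 9].foldl (stepF m) C

/-- the bit mask of a set of edges -/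
def mask (S : Finset (Fin 10)) : ℕ := ∑ i ∈ S, 2 ^ i.val

lemma testBit_mask : ∀ S : Finset (Fin 10), ∀ i : Fin 10,
    (mask S).testBit i.val = decide (i ∈ S) := by
  intro S i
  have h : mask S = ∑ j ∈ S.map Fin.valEmbedding, 2 ^ j := by simp [mask]
  have h2 := Finset.toFinset_bitIndices_sum_two_pow (S.map Fin.valEmbedding)
  rw [h, Bool.eq_iff_iff, ← Nat.mem_bitIndices, ← List.mem_toFinset, h2]
  simp [Fin.val_inj]

lemma idx_ea : ∀ i : Fin 10, idx (ea i) = 438524040 / 8 ^ i.val % 8 := by decide +kernel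

lemma idx_eb : ∀ i : Fin 10, idx (eb i) = 1051978449 / 8 ^ i.val % 8 := by decide +kernel

lemma stepE_eq (S : Finset (Fin 10)) (C : ℕ) (i : Fin 10) :
    stepE S C i = stepF (mask S) C i.val := by
  unfold stepE stepF
  rw [testBit_mask, ← idx_ea, ← idx_eb]
  by_cases h1 : i ∈ S <;> cases C.testBit (idx (ea i)) <;> cases C.testBit (idx (eb i)) <;>
    simp [h1]

lemma grow_eq (S : Finset (Fin 10)) : grow S = growF (mask S) := by
  funext C
  have h : [0, 1, 2, 3, 4, 5, 6, 7, 8, 9] = (List.finRange 10).map Fin.val := by decide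
  rw [grow, growF, h, List.foldl_map]
  congr 1
  funext C i
  exact stepE_eq S C i

/-- fast version of `comp` -/
def compF (m v : ℕ) : ℕ := (growF m)^[7] (2 ^ v)

lemma comp_eq (S : Finset (Fin 10)) (v : Vx) : comp S v = compF (mask S) (idx v) := by
  rw [comp, grow_eq, compF]

/-- connectivity test -/
def Cn (S : Finset (Fin 10)) : Prop := ∀ u : Vx, (compF (mask S) 0).testBit (idx u) = true

instance (S : Finset (Fin 10)) : Decidable (Cn S) := by unfold Cn; infer_instance

/-- splittability test -/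
def Sp (S : Finset (Fin 10)) : Prop :=
  ∃ i : Fin 10, i ∉ S ∧ ∀ v : Vx,
    (univ.filter
      (fun u : Vx => (compF (mask (insert i S)) (idx v)).testBit (idx u) = true)).card = 4

instance (S : Finset (Fin 10)) : Decidable (Sp S) := by unfold Sp; infer_instance

lemma connected_iff_Cn (S : Finset (Fin 10)) : (gam S).Connected ↔ Cn S := by
  have h0 : compF (mask S) 0 = comp S (0, 0) := (comp_eq S (0, 0)).symm
  rw [Cn, h0]
  constructor
  · exact fun h u => (reach_iff S _ u).1 (h.preconnected _ _)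
  · intro h
    exact ⟨fun u v => ((reach_iff S _ u).2 (h u)).symm.trans ((reach_iff S _ v).2 (h v))⟩

lemma spanning_iff (S : Finset (Fin 10)) : IsSpanningTree grid (gam S) ↔ S.card = 3 ∧ Cn S := by
  have h := card_gam S
  have h8 : Nat.card Vx = 8 := by simp
  rw [IsSpanningTree, isTree_iff_connected_and_card, connected_iff_Cn, h8]
  constructor
  · rintro ⟨-, h1, h2⟩
    exact ⟨by omega, h1⟩
  · rintro ⟨h1, h2⟩
    exact ⟨gam_le S, h2, by omega⟩

lemma supp_card (S : Finset (Fin 10)) (v : Vx) :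
    ((gam S).connectedComponentMk v).supp.ncard =
      (univ.filter (fun u : Vx => (compF (mask S) (idx v)).testBit (idx u) = true)).card := by
  rw [← Set.ncard_coe_finset, ← comp_eq]
  congr 1
  ext u
  rw [ConnectedComponent.mem_supp_iff, ConnectedComponent.eq, reachable_comm, reach_iff]
  simp

lemma splittable_iff (S : Finset (Fin 10)) : Splittable (gam S) ↔ Sp S := by
  have h8 : Fintype.card Vx = 8 := by simp
  unfold Splittable Sp
  rw [h8]
  constructor
  · rintro ⟨e, he, h⟩
    obtain ⟨i, hi, rfl⟩ := (mem_gam S e).1 he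
    rw [gam_delete] at h
    refine ⟨i, hi, fun v => ?_⟩
    have := h ((gam (insert i S)).connectedComponentMk v)
    rw [supp_card] at this
    omega
  · rintro ⟨i, hi, h⟩
    refine ⟨ed i, (ed_mem_gam S i).2 hi, ?_⟩
    rw [gam_delete]
    intro C
    induction C using ConnectedComponent.ind with
    | h v => rw [supp_card, h v]

lemma card_trees : (((univ : Finset (Fin 10)).powersetCard 3).filter Cn).card = 56 := by
  decide +kernel

lemma card_split :
    (((univ : Finset (Fin 10)).powersetCard 3).filter (fun S => Cn S ∧ Sp S)).card = 44 := by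
  decide +kernel

lemma pUST_grid : pUST grid = 11 / 14 := by
  have h1 : {T | IsSpanningTree grid T} =
      gam '' ↑(((univ : Finset (Fin 10)).powersetCard 3).filter Cn) := by
    ext T
    constructor
    · intro h
      obtain ⟨S, rfl⟩ := exists_gam h.1
      exact ⟨S, by simpa [mem_powersetCard] using (spanning_iff S).1 h, rfl⟩
    · rintro ⟨S, hS, rfl⟩
      exact (spanning_iff S).2 (by simpa [mem_powersetCard] using hS)
  have h2 : {T | IsSpanningTree grid T ∧ Splittable T} =
      gam '' ↑(((univ : Finset (Fin 10)).powersetCard 3).filter (fun S => Cn S ∧ Sp S)) := by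
    ext T
    constructor
    · intro h
      obtain ⟨S, rfl⟩ := exists_gam h.1.1
      have h3 := (spanning_iff S).1 h.1
      have h4 := (splittable_iff S).1 h.2
      exact ⟨S, by simp [mem_powersetCard, h3.1, h3.2, h4], rfl⟩
    · rintro ⟨S, hS, rfl⟩
      simp only [coe_filter, mem_powersetCard, subset_univ, true_and, Set.mem_ofPred_eq] at hS
      exact ⟨(spanning_iff S).2 ⟨hS.1, hS.2.1⟩, (splittable_iff S).2 hS.2.2⟩
  rw [pUST, h1, h2, Set.ncard_image_of_injective _ gam_inj, Set.ncard_image_of_injective _ gam_inj,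
    Set.ncard_coe_finset, Set.ncard_coe_finset, card_trees, card_split]
  norm_num

end Pool.Agent.MP_ddaf7c_pr
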