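import Pool.Agent.MP_ddaf7c_pr.Ladder

set_option autoImplicit false

namespace Pool.Agent.MP_ddaf7c_pr

open Finset

/-- table of the triples of edges whose removal keeps the grid connected -/
def tab : ℕ := 10337831657520437567944722970459861357387884674354507495518819889544484271624965290479410103978787122294779202915299390952252961549551741906140985165496162059573320875171210626230460212040634470104422894950689106814331736326750776890982195980092753128365174386538493903277999145478026900013457604386743

/-- table of the triples of edges whose removal leaves a splittable spanning tree -/
def stab : ℕ := 1965367745626225451293582183172253108166316702985356750524205017178623101611007547185672614734921191458932155461145564400779540943908439004869666862241665320054421214805136971323475268713202462621610945835360919003612745859690684794119678521575579627424906037010132198131033656327808638269367554048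

/-- lookup -/
def cn (a b c : Fin 10) : Bool := tab.testBit (100 * a.val + 10 * b.val + c.val)

/-- lookup -/
def sp (a b c : Fin 10) : Bool := stab.testBit (100 * a.val + 10 * b.val + c.val)

lemma cn_of : ∀ a b c : Fin 10, Cn {a, b, c} → cn a b c = true := by
  decide +kernel

lemma sp_spec : ∀ a b c : Fin 10, sp a b c = true →
    (a ≠ b ∧ a ≠ c ∧ b ≠ c) ∧ Cn {a, b, c} ∧ Sp {a, b, c} := by
  decide +kernel

end Pool.Agent.MP_ddaf7c_pr
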