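import Mathlib.MeasureTheory.Measure.Real
import Pool.Agent.MP_ddaf7c_pr.LadderTab
import Pool.Agent.MP_ddaf7c_pr.Argmax

set_option autoImplicit false

namespace Pool.Agent.MP_ddaf7c_pr

open Finset SimpleGraph MeasureTheory

/-- edges that can be removed after `a` -/
def S2 (a : Fin 10) : Finset (Fin 10) := univ.filter (fun f => f ≠ a ∧ cn a f f = true)

/-- edges that can be removed after `a` and `b` -/
def S3 (a b : Fin 10) : Finset (Fin 10) :=
  univ.filter (fun f => f ≠ a ∧ f ≠ b ∧ cn a b f = true)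

lemma S3_subset : ∀ a b : Fin 10, S3 a b ⊆ S2 a := by
  decide +kernel

/-- membership test -/
def ok (a b y z : Fin 10) : Bool :=
  y != a && cn a y y && z != a && z != b && cn a b z

lemma ok_iff (a b y z : Fin 10) : ok a b y z = true ↔ y ∈ S2 a ∧ z ∈ S3 a b := by
  simp [ok, S2, S3, and_assoc]

lemma exchange' : ∀ a b : Fin 10, (b != a && cn a b b) = true → ∀ x y z : Fin 10,
    (x != y && x != z && y != z && cn x y z) = true →
    (ok a b y z || ok a b z y || ok a b x z || ok a b z x || ok a b x y || ok a b y x) = true := by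
  decide +kernel

lemma exchange : ∀ a b : Fin 10, b ∈ S2 a → ∀ x y z : Fin 10, x ≠ y → x ≠ z → y ≠ z →
    cn x y z = true →
    (y ∈ S2 a ∧ z ∈ S3 a b) ∨ (z ∈ S2 a ∧ y ∈ S3 a b) ∨ (x ∈ S2 a ∧ z ∈ S3 a b) ∨
    (z ∈ S2 a ∧ x ∈ S3 a b) ∨ (x ∈ S2 a ∧ y ∈ S3 a b) ∨ (y ∈ S2 a ∧ x ∈ S3 a b) := by
  intro a b hb x y z h1 h2 h3 h4
  have := exchange' a b (by simpa [S2] using hb) x y z (by simp [h1, h2, h3, h4])
  simpa only [Bool.or_eq_true, ok_iff, or_assoc] using this

/-- removal orders that end in a splittable tree -/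
def good : Finset (Fin 10 × Fin 10 × Fin 10) :=
  univ.filter (fun t => t.2.1 ∈ S2 t.1 ∧ t.2.2 ∈ S3 t.1 t.2.1 ∧ sp t.1 t.2.1 t.2.2 = true)

lemma sum_good :
    ∑ t ∈ good, (1 / 10 / ((S2 t.1).card : ℚ) / ((S3 t.1 t.2.1).card : ℚ)) = 248 / 315 := by
  decide +kernel

/-- the event that the reverse-delete algorithm removes the three given edges in order -/
def Ev (t : Fin 10 × Fin 10 × Fin 10) : Set (Fin 10 → ℝ) :=
  Top univ t.1 ∩ Top (S2 t.1) t.2.1 ∩ Top (S3 t.1 t.2.1) t.2.2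

lemma measurableSet_Ev (t : Fin 10 × Fin 10 × Fin 10) : MeasurableSet (Ev t) :=
  ((measurableSet_Top _ _).inter (measurableSet_Top _ _)).inter (measurableSet_Top _ _)

lemma union_Ev : (248 / 315 : ℝ) ≤ (cube (Fin 10)).real (⋃ t ∈ good, Ev t) := by
  rw [measureReal_biUnion_finset _ (fun t _ => measurableSet_Ev t)]
  · have h : ((∑ t ∈ good, (1 / 10 / ((S2 t.1).card : ℚ) / ((S3 t.1 t.2.1).card : ℚ)) : ℚ) : ℝ) =
        248 / 315 := by
      rw [sum_good]; norm_num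
    rw [← h]
    push_cast
    refine sum_le_sum (fun t ht => ?_)
    obtain ⟨h1, h2, -⟩ := (mem_filter.1 ht).2
    have := nested (a := t.1) h1 h2 (by simp [S2]) (by simp [S3]) (S3_subset _ _)
    simpa [Ev] using this
  · rintro ⟨a, b, c⟩ ht ⟨a', b', c'⟩ ht' hne
    obtain ⟨h1, h2, -⟩ := (mem_filter.1 ht).2
    obtain ⟨h1', h2', -⟩ := (mem_filter.1 ht').2
    refine Set.disjoint_left.2 (fun w hw hw' => hne ?_)
    obtain rfl : a = a' := Top_unique (mem_univ _) (mem_univ _) hw.1.1 hw'.1.1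
    obtain rfl : b = b' := Top_unique h1 h1' hw.1.2 hw'.1.2
    obtain rfl : c = c' := Top_unique h2 h2' hw.2 hw'.2
    rfl

lemma three_lt {a b c x y z : Fin 10} {w : Fin 10 → ℝ} (hw : w ∈ Ev (a, b, c))
    (hy : y ∈ S2 a) (hz : z ∈ S3 a b) (hne : ¬ (x = a ∧ y = b ∧ z = c)) :
    w x + w y + w z < w a + w b + w c := by
  have h1 : x = a ∨ w x < w a := (eq_or_ne x a).imp id (hw.1.1 x (mem_univ _))
  have h2 : y = b ∨ w y < w b := (eq_or_ne y b).imp id (hw.1.2 y hy)
  have h3 : z = c ∨ w z < w c := (eq_or_ne z c).imp id (hw.2 z hz)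
  rcases h1 with rfl | h1 <;> rcases h2 with rfl | h2 <;> rcases h3 with rfl | h3
  · exact absurd ⟨rfl, rfl, rfl⟩ hne
  all_goals linarith

lemma sum_three {x y z : Fin 10} (w : Fin 10 → ℝ) (h1 : x ≠ y) (h2 : x ≠ z) (h3 : y ≠ z) :
    ∑ i ∈ ({x, y, z} : Finset (Fin 10)), w i = w x + w y + w z := by
  rw [sum_insert (by simp [h1, h2]), sum_insert (by simp [h3]), sum_singleton, add_assoc]

lemma sum_lt {a b c : Fin 10} (ht : (a, b, c) ∈ good) {w : Fin 10 → ℝ} (hw : w ∈ Ev (a, b, c))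
    {S : Finset (Fin 10)} (hS : S.card = 3) (hC : Cn S) (hne : S ≠ {a, b, c}) :
    ∑ i ∈ S, w i < ∑ i ∈ ({a, b, c} : Finset (Fin 10)), w i := by
  obtain ⟨h1, -, h3⟩ := (mem_filter.1 ht).2
  obtain ⟨⟨hab, hac, hbc⟩, -⟩ := sp_spec a b c h3
  obtain ⟨x, y, z, hxy, hxz, hyz, rfl⟩ := card_eq_three.1 hS
  rw [sum_three w hxy hxz hyz, sum_three w hab hac hbc]
  rcases exchange a b h1 x y z hxy hxz hyz (cn_of x y z hC) with h | h | h | h | h | h
  · have := three_lt (x := x) hw h.1 h.2 (by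
      rintro ⟨rfl, rfl, rfl⟩
      exact hne rfl)
    linarith
  · have := three_lt (x := x) hw h.1 h.2 (by
      rintro ⟨rfl, rfl, rfl⟩
      exact hne (by ext; simp; tauto))
    linarith
  · have := three_lt (x := y) hw h.1 h.2 (by
      rintro ⟨rfl, rfl, rfl⟩
      exact hne (by ext; simp; tauto))
    linarith
  · have := three_lt (x := y) hw h.1 h.2 (by
      rintro ⟨rfl, rfl, rfl⟩
      exact hne (by ext; simp; tauto))
    linarith
  · have := three_lt (x := z) hw h.1 h.2 (by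
      rintro ⟨rfl, rfl, rfl⟩
      exact hne (by ext; simp; tauto))
    linarith
  · have := three_lt (x := z) hw h.1 h.2 (by
      rintro ⟨rfl, rfl, rfl⟩
      exact hne (by ext; simp; tauto))
    linarith

/-- the numbering of the edges -/
noncomputable def edEquiv : Fin 10 ≃ grid.edgeSet :=
  Equiv.ofBijective (fun i => ⟨ed i, (mem_grid _).2 ⟨i, rfl⟩⟩)
    ⟨fun _ _ h => ed_inj (congrArg Subtype.val h), fun e => by
      obtain ⟨i, hi⟩ := (mem_grid e.1).1 e.2
      exact ⟨i, Subtype.ext hi⟩⟩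

lemma weight_gam (w : grid.edgeSet → ℝ) (S : Finset (Fin 10)) :
    weight grid w (gam S) + ∑ i ∈ S, w (edEquiv i) = ∑ i, w (edEquiv i) := by
  classical
  rw [← sum_compl_add_sum S, weight, ← Equiv.sum_comp edEquiv]
  congr 1
  rw [← sum_filter]
  refine sum_congr ?_ (fun _ _ => rfl)
  ext i
  simp only [mem_filter, mem_univ, true_and, mem_compl]
  exact ed_mem_gam S i

lemma pMST_grid : 248 / 315 ≤ pMST grid := by
  classical
  refine union_Ev.trans ?_
  unfold pMST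
  rw [← (mp_comp edEquiv).measureReal_preimage
    (measurableSet_biUnion good (fun t _ => measurableSet_Ev t)).nullMeasurableSet]
  refine measureReal_mono (fun w hw => ?_)
  simp only [Set.mem_preimage, Set.mem_iUnion] at hw
  obtain ⟨⟨a, b, c⟩, ht, hw⟩ := hw
  obtain ⟨⟨hab, hac, hbc⟩, hC, hS⟩ := sp_spec a b c (mem_filter.1 ht).2.2.2
  refine ⟨gam {a, b, c}, (spanning_iff _).2 ⟨card_eq_three.2 ⟨a, b, c, hab, hac, hbc, rfl⟩, hC⟩,
    (splittable_iff _).2 hS, fun T' hT' hne => ?_⟩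
  obtain ⟨S, rfl⟩ := exists_gam hT'.1
  obtain ⟨h1, h2⟩ := (spanning_iff S).1 hT'
  have h3 := sum_lt ht hw h1 h2 (fun h => hne (by rw [h]))
  have h4 := weight_gam w S
  have h5 := weight_gam w {a, b, c}
  linarith

end Pool.Agent.MP_ddaf7c_pr
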